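import Pool.Agent.U175.DS.Pub

/-!
# The theorem of Deligne and Serre for `GL_n`

Let `π` be an algebraic cuspidal representation of `GL_n` over `ℚ` all of whose exponents `p_i`, `q_i` at
infinity are zero, the case farthest from the regular one, with integral Hecke eigenvalues in a number
field `K`. We assume that the mean squares of the traces `a_p` of the Satake parameters are bounded, for all
the embeddings of `K` (for arbitrarily large `x`; by the theory of Rankin and Selberg the mean squares
tend to `1` if the conjugates of `π` are cuspidal automorphic).

We show: if there are semisimple representations in characteristic `ℓ` with the characteristic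
polynomials of Frobenius elements predicted by `π`, for infinitely many prime numbers `ℓ`, then there is
a representation of the Galois group with finite image and complex coefficients corresponding to `π` at
all the primes at which `π` is unramified. So the conjecture of Langlands and Clozel holds for `π`, all
primes `ℓ` and all isomorphisms `ι`; and the Satake parameters of `π` are roots of unity of
bounded order, in particular `π` satisfies the Ramanujan conjecture at these primes.

For `n = 2` this is due to Deligne and Serre, who use the classification of the subgroups of
`GL_2(F_ℓ)`. The proof here is different. There are finitely many values for the traces outside of a set of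
primes of small lower density. Let `G_ℓ` be the image and `h_1, …, h_m` be elements of `G_ℓ` which form a
basis of the algebra generated by it, `m ≤ n²`. By Chebotarev's theorem (proved in the library) for most
`g ∈ G_ℓ` all the traces of `g h_1, …, g h_m` belong to the finite set, and they determine `g` as the trace
form of a semisimple representation is nondegenerate if `ℓ > n`; so the order of `G_ℓ` is bounded
independently of `ℓ`. The kernels are then the same for all large `ℓ`, and the representations of this
finite quotient are glued to one in characteristic zero by means of a quotient of the product
of the fields.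

Libraries: `Pool/Agent/R401` (helper401) of the starting library, which contains the theorem with
mean squares bounded for all `x` as `Pool.Agent.R401.DS.main`, without hand-in.
-/

set_option autoImplicit false

namespace Pool.Agent.Results.MP_ef641d_nt.ModularRepresentations

open NumberField Polynomial Pool.Agent.U175.DS

/-- **Modular representations for infinitely many primes suffice.** -/
theorem result {K : Type} [Field K] [NumberField K] {n : ℕ} {B : Set ℕ} {f : ℕ → (𝓞 K)[X]}
    (h : IntegralSystem K n B f) (hmod : {ℓ : ℕ | ℓ.Prime ∧ HasModular n B f ℓ}.Infinite)
    (σ₀ : K →+* ℂ) :
    HasArtin n B f σ₀ ∧
    (∀ (ℓ : ℕ) [Fact ℓ.Prime] (ι : PadicAlgCl ℓ ≃+* ℂ), HasLadic n B f σ₀ ℓ ι) ∧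
    ∃ e : ℕ, 0 < e ∧ ∀ p, p.Prime → p ∉ B → ∀ α : ℂ, (toC σ₀ (f p)).IsRoot α → α ^ e = 1 := by
  have h1 : HasArtin n B f σ₀ := hasArtin_of_modular h σ₀ hmod
  refine ⟨h1, fun ℓ _ ι => ?_, h1.roots⟩
  obtain ⟨ρ, a, b, -, c⟩ := h1.ladic ℓ ι
  exact ⟨ρ, a, b, fun p hp hpB _ => c p hp hpB⟩

end Pool.Agent.Results.MP_ef641d_nt.ModularRepresentations
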