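import Pool.Agent.U547.TV.Main

/-!
# Forms on `GL_2` whose values `a_p² / ω_p` lie in a set of four numbers outside a sparse set of primes

Let `π` be a cuspidal automorphic representation of `GL_2` over `ℚ` (with unitary central character `ω`),
unramified outside the finite set `S` of primes, with Satake parameters `α_p, β_p`, Hecke eigenvalues
`a_p = α_p + β_p` and `ω_p = α_p β_p`, `p ∉ S`. As `π_p` is unitary, `y_p = a_p² / ω_p = |a_p|²` is real
(`≥ 0`). Let `H_p = max (|α_p / β_p|, |β_p / α_p|)` (so `H_p = 1` if `π_p` is tempered). We prove: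

**Theorem.** Let `Sym⁴ π` be cuspidal and let `V` be a set of at most four real numbers. Then the sum of
`log p · min (1, H_p⁴ / √p)` over the primes `p` with `y_p ∉ V` diverges. If `p^{-θ} ≤ |α_p / β_p| ≤ p^θ` for all
`p ∉ S` (`θ = 0` is the Ramanujan conjecture), then for every `κ < 1/2 - 4 θ` there are, for arbitrarily large `X`,
at least `X^κ` primes `p ≤ X` with `y_p ∉ V`.

So if the numbers `a_p² / ω_p` take at most four values outside a **sparse infinite** set of primes (the sum over it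
converges), then `Sym⁴ π` is not cuspidal, `π` is of dihedral, tetrahedral or octahedral type (Kim-Shahidi 2002), and for
algebraic `π` the Galois representations of Q1 (`n = 2`) exist, because such a `π` belongs to a two-dimensional
representation of the Weil group (automorphic induction; Langlands, Tunnell). No assumption on `π_∞` is made; the new
case is the one of the Maass forms. Four cannot be replaced by five: for a form of icosahedral type `y_p` takes the
five values `0`, `1`, `4`, `(3 ± √5)/2`.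

*New here.* The theorem of the starting library (`Pool.Agent.N210.FV.main`) says only that `y_p ∉ V` for infinitely many
`p`, that is, it needs the hypothesis at all but finitely many primes, where the parameters are then uniformly
bounded. At a sparse set of exceptional primes nothing is known about the parameters. The new ingredient is the
rigidity principle `Pool.Agent.U547.TV.rigid`: if a real linear combination of the coefficients at the primes of several
L-functions vanishes up to a part whose Dirichlet series converges absolutely on the closed half plane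
`Re s ≥ 1/2`, then it vanishes at ALL prime powers, exceptional primes included (and there is no constant term,
`Pool.Agent.U547.TV.moment`); here the other part starts only at the squares of the primes, so its series does not
converge on the line. (For relations which hold at all powers of the non-exceptional primes see `Pool.Agent.U849.TE`; for two
functions of the Selberg class see Soundararajan.) So the sparse set is finite, and the library theorem applies.

*Hypotheses.* For `j = 1, …, 4` let `A^j π = Sym^{2j} π ⊗ ω^{-j}`; with `t_p = α_p / β_p` its parameters are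
`t_p^m`, `-j ≤ m ≤ j`. `AdjointL` below says that `L_S(s, A^j π)` is meromorphic of order at most `3/2`,
has a functional equation with the same local data for `s` and `1 - s` (`A^j π` is selfdual), and is finite and
nonzero at `s = 1`. These are theorems when `Sym⁴ π` is cuspidal: `A^1 π`, `A^2 π` are cuspidal (Gelbart,
Jacquet, Kim, Shahidi), and `L(s, A^3 π) = L(s, Sym³ × Sym³~) / (ζ(s) L(s, A^1) L(s, A^2))`,
`L(s, A^4 π) = L(s, Sym⁴ × Sym⁴~) / (ζ(s) L(s, A^1) L(s, A^2) L(s, A^3))`, where the two Rankin-Selberg functions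
have simple poles at `s = 1`. `hJS` is `p^{-1/4} < |t_p| < p^{1/4}` (by Kim and Shahidi `p^{-1/9} < |α_p| < p^{1/9}`).
`hRS`: the function `L_S(s, Sym⁴ × Sym⁴~)` (times the Euler factors of `ζ` in `S`) is holomorphic
on the real interval `(0, 1)` (Mœglin-Waldspurger). `hSym`: so is
`L_S(s, Sym⁴ π, Sym² ⊗ ω^{-4}) = ζ_S(s) L_S(s, A^2) L_S(s, A^4)` (Bump-Ginzburg, Takeda).
-/

set_option autoImplicit false

open Filter Topology

namespace Pool.Agent.Results.MP_ef641d_nt.SparseExceptions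

/-- `∏ Γ_ℝ(s + m)⁻¹`, `m` in the list `μ`, `Γ_ℝ(s) = π^{-s/2} Γ(s/2)`: an inverse gamma factor -/
noncomputable def invGamma (μ : List ℂ) (s : ℂ) : ℂ := (μ.map fun m => (Complex.Gammaℝ (s + m))⁻¹).prod

/-- `∏_{(p, b) ∈ l} (1 - b p^{-s})` -/
noncomputable def finEuler (l : List (ℕ × ℂ)) (s : ℂ) : ℂ :=
  (l.map fun x => 1 - x.2 * (x.1 : ℂ) ^ (-s)).prod

/-- The Euler product `∏_{p ∉ S} ∏_{-j ≤ m ≤ j} (1 - t_p^m p^{-s})⁻¹` is for `Re s > 1` equal to `N/D`, `N` and `D`
entire of order at most `3/2`, `D` without zeros there; there is a functional equation between `s` and `1 - s`;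
and `N/D` has a finite limit different from `0` at `1`. -/
structure AdjointL (S : Finset ℕ) (t : ℕ → ℂ) (j : ℕ) (N D : ℂ → ℂ) : Prop where
  /-- `N` is entire -/
  entire_N : Differentiable ℂ N
  /-- `D` is entire -/
  entire_D : Differentiable ℂ D
  /-- `N` and `D` are of order at most `3/2` -/
  order : ∃ C : ℝ, ∀ s, ‖N s‖ ≤ Real.exp (C * (1 + ‖s‖) ^ (3 / 2 : ℝ)) ∧
    ‖D s‖ ≤ Real.exp (C * (1 + ‖s‖) ^ (3 / 2 : ℝ))
  /-- `D` has no zeros in `Re s > 1` -/
  ne_zero : ∀ s : ℂ, 1 < s.re → D s ≠ 0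
  /-- the partial Euler products converge to `N/D` in `Re s > 1` -/
  euler : ∀ s : ℂ, 1 < s.re → Tendsto (fun X : ℕ =>
    ∏ p ∈ (Finset.range X).filter (fun p => p.Prime ∧ p ∉ S),
      ∏ m ∈ Finset.Icc (-(j : ℤ)) j, (1 - t p ^ m * (p : ℂ) ^ (-s))⁻¹) atTop (𝓝 (N s / D s))
  /-- functional equation: with
  `Λ(s) = q^s · (invGamma μ s)⁻¹ · finEuler l' s / finEuler l s · N s / D s` it says `Λ(s) = ε Λ(1 - s)` -/
  functional : ∃ (μ : List ℂ) (l l' : List (ℕ × ℂ)) (q : ℝ) (ε : ℂ), 0 < q ∧ ε ≠ 0 ∧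
    (∀ x ∈ l, x.1.Prime ∧ x.1 ∈ S) ∧ (∀ x ∈ l', x.1.Prime ∧ x.1 ∈ S) ∧
    ∀ s, (q : ℂ) ^ s * invGamma μ (1 - s) * finEuler l (1 - s) * finEuler l' s * (N s * D (1 - s)) =
      ε * (q : ℂ) ^ (1 - s) * invGamma μ s * finEuler l s * finEuler l' (1 - s) * (N (1 - s) * D s)
  /-- neither a zero nor a pole at `1` -/
  one : ∃ c : ℂ, c ≠ 0 ∧ Tendsto (fun s => N s / D s) (𝓝[≠] 1) (𝓝 c)

/-- **The primes at which `a_p² / ω_p` avoids four given values are not sparse.** -/
theorem result {S : Finset ℕ} {α β : ℕ → ℂ} {y : ℕ → ℝ} {N D : ℕ → ℂ → ℂ}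
    (hα : ∀ p : ℕ, p.Prime → p ∉ S → α p ≠ 0 ∧ β p ≠ 0)
    (hy : ∀ p : ℕ, p.Prime → p ∉ S → (α p + β p) ^ 2 = y p * (α p * β p))
    (hJS : ∀ p : ℕ, p.Prime → p ∉ S → ‖α p / β p‖ ^ 4 < p ∧ ‖β p / α p‖ ^ 4 < p)
    (hL : ∀ j : ℕ, 1 ≤ j → j ≤ 4 → AdjointL S (fun p => α p / β p) j (N j) (D j))
    (hRS : ∀ x : ℝ, 0 < x → x < 1 → ∃ c, Tendsto (fun s => riemannZeta s *
      ((N 1 s / D 1 s) * (N 2 s / D 2 s) * (N 3 s / D 3 s) * (N 4 s / D 4 s))) (𝓝[≠] (x : ℂ)) (𝓝 c))
    (hSym : ∀ x : ℝ, 0 < x → x < 1 → ∃ c, Tendsto (fun s => riemannZeta s *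
      (N 2 s / D 2 s * (N 4 s / D 4 s))) (𝓝[≠] (x : ℂ)) (𝓝 c))
    (V : Finset ℝ) (hV : V.card ≤ 4) :
    (¬ Summable fun p : {p : ℕ // p.Prime ∧ p ∉ S ∧ y p ∉ V} =>
      Real.log (p : ℕ) * min 1 (max ‖α p / β p‖ ‖β p / α p‖ ^ 4 / √((p : ℕ) : ℝ))) ∧
    (∀ θ κ : ℝ, (∀ p : ℕ, p.Prime → p ∉ S →
        ‖α p / β p‖ ≤ (p : ℝ) ^ θ ∧ ‖β p / α p‖ ≤ (p : ℝ) ^ θ) → κ < 1 / 2 - 4 * θ →
      ∀ X₀ : ℕ, ∃ X : ℕ, X₀ ≤ X ∧
        (X : ℝ) ^ κ ≤ Nat.card {p : ℕ | p ≤ X ∧ p.Prime ∧ p ∉ S ∧ y p ∉ V}) := by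
  classical
  have h0 : ∀ p : ℕ, p.Prime → p ∉ S → α p / β p ≠ 0 := fun p hp hpS =>
    div_ne_zero (hα p hp hpS).1 (hα p hp hpS).2
  have h1 : ∀ p : ℕ, p.Prime → p ∉ S → α p / β p + (α p / β p)⁻¹ + 2 = y p := by
    intro p hp hpS
    obtain ⟨h1, h2⟩ := hα p hp hpS
    have h3 := hy p hp hpS
    have h4 : α p / β p + (α p / β p)⁻¹ + 2 = (α p + β p) ^ 2 / (α p * β p) := by
      field_simp
      ring
    rw [h4, h3]
    field_simp
  have h2 : ∀ p : ℕ, p.Prime → p ∉ S → ∀ m ∈ Finset.Icc (-4 : ℤ) 4, ‖(α p / β p) ^ m‖ < p := by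
    intro p hp hpS m hm
    have hp1 : (1 : ℝ) < p := by exact_mod_cast hp.one_lt
    obtain ⟨h3, h4⟩ := hJS p hp hpS
    have key : ∀ (z : ℂ) (k : ℕ), ‖z‖ ^ 4 < p → k ≤ 4 → ‖z ^ k‖ < p := by
      intro z k hz hk
      rw [norm_pow]
      rcases le_total ‖z‖ 1 with h | h
      · exact lt_of_le_of_lt (pow_le_one₀ (norm_nonneg _) h) hp1
      · exact lt_of_le_of_lt (pow_le_pow_right₀ h hk) hz
    rw [Finset.mem_Icc] at hm
    rcases le_total 0 m with h | h
    · obtain ⟨k, rfl⟩ := Int.eq_ofNat_of_zero_le h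
      rw [zpow_natCast]
      exact key _ k h3 (by omega)
    · obtain ⟨k, hk⟩ := Int.eq_ofNat_of_zero_le (neg_nonneg.2 h)
      have hm' : m = -(k : ℤ) := by omega
      rw [hm', zpow_neg, zpow_natCast, ← inv_pow, inv_div]
      exact key _ k h4 (by omega)
  have h3 : ∀ j ∈ Finset.Icc 1 4,
      Pool.Agent.N210.FV.AdjL S (fun p => α p / β p) j (N j) (D j) := by
    intro j hj
    rw [Finset.mem_Icc] at hj
    have h := hL j hj.1 hj.2
    exact ⟨h.entire_N, h.entire_D, h.order, h.ne_zero, h.euler, h.functional, h.one⟩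
  have h4 : ∀ x : ℝ, 0 < x → x < 1 → ∃ c, Tendsto (fun s => riemannZeta s *
      ∏ j ∈ Finset.Icc 1 4, (N j s / D j s)) (𝓝[≠] (x : ℂ)) (𝓝 c) := by
    intro x h0 h1
    obtain ⟨c, hc⟩ := hRS x h0 h1
    refine ⟨c, hc.congr fun s => ?_⟩
    have e : Finset.Icc 1 4 = ({1, 2, 3, 4} : Finset ℕ) := by decide
    rw [e]
    rw [Finset.prod_insert (by decide), Finset.prod_insert (by decide), Finset.prod_insert (by decide),
      Finset.prod_singleton]
    ring
  refine ⟨fun hsm => ?_, fun θ κ hθ hκ X₀ => ?_⟩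
  · refine Pool.Agent.U547.TV.main (t := fun p => α p / β p) h0 h1 h2 h3 h4 hSym V hV
      (hsm.congr fun p => ?_)
    unfold Pool.Agent.U547.TV.sz
    rw [inv_div]
  · obtain ⟨X, hX, h⟩ := Pool.Agent.U547.TV.main_count (t := fun p => α p / β p) h0 h1 h2 h3 h4
      hSym V hV (θ := θ) (κ := κ) (fun p hp hpS => by rw [inv_div]; exact hθ p hp hpS) hκ X₀
    refine ⟨X, hX, h.trans (le_of_eq ?_)⟩
    rw [Pool.Agent.U547.TV.cnt_eq]
    rfl

end Pool.Agent.Results.MP_ef641d_nt.SparseExceptions
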