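import Pool.Agent.U849.TG.Main

/-!
# Galois representations attached to `π` outside an infinite set of primes; one prime `ℓ` suffices

Let `π` be an algebraic cuspidal representation of `GL_n` over `ℚ`, unramified outside the finite set `S` of primes,
with all exponents `p_i`, `q_i` at infinity equal to zero, with integral Hecke eigenvalues in a number field `K`, such
that the mean squares of the traces `a_p` of the Satake parameters are bounded, for all the embeddings of `K`, for
arbitrarily large `x` (`IntegralSystem`; by the theory of Rankin and Selberg they tend to `1` if the conjugates of `π`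
are cuspidal automorphic). Let `E` be an infinite set of primes.

1. (No L-functions.) If `E` has density zero, and if there is an `ℓ`-adic representation for *one* prime `ℓ ∈ E` and
   one `ι`, or there are semisimple representations in characteristic `ℓ` for infinitely many `ℓ`, which correspond to
   `π_p` at the primes `p ∉ S ∪ E`, then there is a complex representation `R` with finite image corresponding to `π_p`
   for all `p ∉ S ∪ E`.
2. If moreover `E` is thin, `∑_{p ∈ E} log p · w_p / (√p - w_p) < ∞`, where `1 ≤ w_p < √p` bounds the absolute values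
   of the Satake parameters and their inverses at `p ∈ E` (for instance `w_p = p^θ`, `θ < 1/2`), and the L-function of
   `π` and those of the Artin representations of dimension `n` have their continuations and functional equations
   (Godement-Jacquet; Brauer and Hecke), then `R` corresponds to `π_p` at **all** `p ∉ S`; so `R` is unramified there,
   `π` is tempered there, and the conclusion of the conjecture holds for all primes `ℓ` and all `ι`.

In part 2 the set `E = {ℓ}` is allowed: one `ℓ`-adic representation, and no information at `ℓ`, gives all the others.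
(The earlier results have finite exceptional sets and need two primes `ℓ`, or infinitely many.) In general nothing is
assumed at the infinitely many primes of `E`: neither that `π_p` is tempered, nor that the representations are
unramified.

Idea of 2. `R` may be ramified at primes of `E`; there the Euler factor of its L-function has less than `n`
parameters, which are completed by zeros. `L(s, π)` and `L(s, R)` have the same Euler factors outside `E`. The
difference of the logarithmic derivatives (made self-dual, `L(s + it) L'(s - it)`) is an absolutely convergent Dirichlet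
series on the closed half plane `Re s ≥ 1/2`, and by the functional equation it is known on `Re s ≤ 1/2`; the two
half planes meet only in the line, on which there are no poles; each coefficient is isolated by a Gaussian weight. So
the Euler factors agree at all `p ∉ S`, and as that of `π` has `n` parameters different from zero, `R` is unramified.

Libraries: `Pool.Agent.N210.FV` (Gaussian weights), `Pool.Agent.U253.EEA.Pair`, `Pool.Agent.R401`,
`Pool.Agent.U175.DS` (finite exceptional sets).
-/

set_option autoImplicit false

namespace Pool.Agent.Results.MP_ef641d_nt.ThinExceptionalSets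

open NumberField Polynomial Filter Pool.Agent.U175.DS Pool.Agent.U849.TE Pool.Agent.U849.TG

/-- `E` has density zero in the set of the primes. -/
def DensityZero (E : Set ℕ) : Prop :=
  ∀ ε : ℝ, 0 < ε → ∀ᶠ N : ℕ in atTop,
    (Nat.card {p : ℕ // p ≤ N ∧ p.Prime ∧ p ∈ E} : ℝ) ≤ ε * Nat.primeCounting N

/-- The Satake parameters. -/
noncomputable def satake {K : Type} [Field K] [NumberField K] (f : ℕ → (𝓞 K)[X]) (σ₀ : K →+* ℂ) (p : ℕ) :
    Multiset ℂ := (toC σ₀ (f p)).roots

/-- The L-functions of the Artin representations of dimension `n`, without the Euler factors at `S`, are nice (Brauer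
and Hecke). -/
def ArtinNice (n : ℕ) (S : Finset ℕ) : Prop :=
  ∀ R : GQ →* GL (Fin n) ℂ, IsOpen (R.ker : Set GQ) →
    ∃ C : ℕ → Multiset ℂ, IsArtinFamily S R C ∧ NiceL S C

/-- Representations corresponding to `π_p` at the primes `p ∉ S ∪ E`: one `ℓ`-adic representation, with `ℓ ∈ E`, or
representations in infinitely many characteristics. -/
def HasOutside {K : Type} [Field K] [NumberField K] (n : ℕ) (S : Finset ℕ) (E : Set ℕ)
    (f : ℕ → (𝓞 K)[X]) (σ₀ : K →+* ℂ) : Prop :=
  (∃ (ℓ : ℕ) (_ : Fact ℓ.Prime) (ι : PadicAlgCl ℓ ≃+* ℂ), ℓ ∈ E ∧ HasLadic n (S ∪ E) f σ₀ ℓ ι) ∨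
    {ℓ : ℕ | ℓ.Prime ∧ HasModular n (S ∪ E) f ℓ}.Infinite

/-- **Infinite exceptional sets, and one prime suffices.** -/
theorem result {K : Type} [Field K] [NumberField K] {n : ℕ} {S : Finset ℕ} {f : ℕ → (𝓞 K)[X]}
    (h : IntegralSystem K n S f) (σ₀ : K →+* ℂ) (E : Set ℕ) (hρ : HasOutside n S E f σ₀) :
    (DensityZero E → HasArtin n (S ∪ E) f σ₀) ∧
    ∀ w : ℕ → ℝ, ThinSet S E w → (∀ p : ℕ, p.Prime → p ∉ S → p ∈ E → 1 ≤ w p) →
      (∀ p : ℕ, p.Prime → p ∉ S → (f p).Monic ∧ (f p).natDegree = n ∧ (f p).coeff 0 ≠ 0) →
      SmallAt S E w (satake f σ₀) → NiceL S (satake f σ₀) → ArtinNice n S →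
        HasArtin n S f σ₀ ∧
        (∀ (ℓ : ℕ) [Fact ℓ.Prime] (ι : PadicAlgCl ℓ ≃+* ℂ), HasLadic n S f σ₀ ℓ ι) ∧
        ∃ e : ℕ, 0 < e ∧ ∀ p, p.Prime → p ∉ S → ∀ α ∈ satake f σ₀ p, α ^ e = 1 := by
  have key : Zd E → HasArtin n (S ∪ E) f σ₀ := by
    intro hz
    rcases hρ with ⟨ℓ, hℓ, ι, hℓE, hl⟩ | hmod
    · exact artin_of_ladic h hz hℓE hl
    · exact artin_of_modular h hz σ₀ hmod
  refine ⟨fun hz => key hz, fun w hE h1 hf hs hN hA => ?_⟩
  have h2 : HasArtin n S f σ₀ := artin_extend hE h1 hf hs hN hA (key (Zd.of_thin hE h1))
  refine ⟨h2, fun ℓ _ ι => ?_, ?_⟩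
  · obtain ⟨ρ, a, b, -, c⟩ := h2.ladic ℓ ι
    exact ⟨ρ, a, b, fun p hp hpB _ => c p hp hpB⟩
  · obtain ⟨e, he0, he⟩ := h2.roots
    exact ⟨e, he0, fun p hp hpS α hα => he p hp hpS α (isRoot_of_mem_roots hα)⟩

end Pool.Agent.Results.MP_ef641d_nt.ThinExceptionalSets
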