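import Pool.Agent.U175.DS.Pub

/-!
# All or at most one prime: a zero-one law for the conjecture of Langlands and Clozel

Let `π` be an algebraic cuspidal representation of `GL_n` over `ℚ` all of whose exponents `p_i`, `q_i` at
infinity are zero, with integral Hecke eigenvalues in a number field `K`, such that the mean squares
of the traces `a_p` of the Satake parameters are bounded, for all the embeddings of `K` (for arbitrarily
large `x`; by the theory of Rankin and Selberg they tend to `1` if the conjugates of `π` are cuspidal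
automorphic).

We show: either the conclusion of the conjecture holds for `π`, every prime `ℓ` and every isomorphism
`ι : ℚ_ℓ-bar ≅ ℂ`, there is a representation with finite image and complex coefficients
corresponding to `π`, and the Satake parameters are roots of unity of bounded order; or there is at most one prime
`ℓ` such that the conclusion holds for `ℓ` and some `ι`.

Proof. Let `ρ` be an `ℓ`-adic representation corresponding to `π`, and let `h_1, …, h_m` be a basis of the
algebra generated by the image, `m ≤ n²`. Outside of a set of primes of small lower density the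
traces `a_p` take finitely many values. By Chebotarev's theorem for closed sets, the set of the `g` such
that the traces of `ρ(g h_1), …, ρ(g h_m)` all belong to the finite set is not small; but the trace
form is nondegenerate, so this set is contained in finitely many cosets of the kernel of `ρ`, which is
therefore open. The representations for two primes have the same kernel, and one of them gives
the missing information at the residue characteristic of the other one.

Libraries: Chebotarev's theorem and the engine `Pool.Agent.R401.Eng.isOpen_of_cosets` of the starting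
library.
-/

set_option autoImplicit false

namespace Pool.Agent.Results.MP_ef641d_nt.TwoPrimes

open NumberField Polynomial Pool.Agent.U175.DS

/-- **Zero-one law.** -/
theorem result {K : Type} [Field K] [NumberField K] {n : ℕ} {B : Set ℕ} {f : ℕ → (𝓞 K)[X]}
    (h : IntegralSystem K n B f) (σ₀ : K →+* ℂ) :
    ((∀ (ℓ : ℕ) [Fact ℓ.Prime] (ι : PadicAlgCl ℓ ≃+* ℂ), HasLadic n B f σ₀ ℓ ι) ∧
      HasArtin n B f σ₀ ∧
      ∃ e : ℕ, 0 < e ∧ ∀ p, p.Prime → p ∉ B → ∀ α : ℂ, (toC σ₀ (f p)).IsRoot α → α ^ e = 1) ∨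
    ∀ (ℓ₁ : ℕ) [Fact ℓ₁.Prime] (ℓ₂ : ℕ) [Fact ℓ₂.Prime] (ι₁ : PadicAlgCl ℓ₁ ≃+* ℂ)
      (ι₂ : PadicAlgCl ℓ₂ ≃+* ℂ), HasLadic n B f σ₀ ℓ₁ ι₁ → HasLadic n B f σ₀ ℓ₂ ι₂ → ℓ₁ = ℓ₂ := by
  by_cases hcon : ∀ (ℓ₁ : ℕ) [Fact ℓ₁.Prime] (ℓ₂ : ℕ) [Fact ℓ₂.Prime] (ι₁ : PadicAlgCl ℓ₁ ≃+* ℂ)
      (ι₂ : PadicAlgCl ℓ₂ ≃+* ℂ), HasLadic n B f σ₀ ℓ₁ ι₁ → HasLadic n B f σ₀ ℓ₂ ι₂ → ℓ₁ = ℓ₂
  · exact Or.inr hcon
  · push Not at hcon
    obtain ⟨ℓ₁, i₁, ℓ₂, i₂, ι₁, ι₂, h₁, h₂, hne⟩ := hcon
    have h3 : HasArtin n B f σ₀ := hasArtin_of_two h hne h₁ h₂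
    refine Or.inl ⟨fun ℓ _ ι => ?_, h3, h3.roots⟩
    obtain ⟨ρ, a, b, -, c⟩ := h3.ladic ℓ ι
    exact ⟨ρ, a, b, fun p hp hpB _ => c p hp hpB⟩

end Pool.Agent.Results.MP_ef641d_nt.TwoPrimes
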